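import Pool.Agent.Q60.FI.LDefs0

/-!
# Tensors in the cohomology of degree one: definitions
-/

open CategoryTheory AlgebraicGeometry

universe u v

namespace Pool.Agent.Q60.AB

open Pool.Agent.Y121.AHS Pool.Agent.Q60.FI

section Alg

variable {K A C : Type} [Field K] [Ring A] [Algebra K A] [Ring C] [Algebra K C]

/-- Let `p` and `s` be the pull-back and the push-forward for the projections of a product `X × X`.
This is the operator `x ↦ s (c · p x)` given by the class `c` on `X × X`. -/
def act (p : A →ₐ[K] C) (s : C →ₗ[K] A) (c : C) (x : A) : A := s (c * p x)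

/-- The class `c` is a linear combination of elements of `S`, and the operator `act p s c` maps `V`
to itself. -/
def Acts (p : A →ₐ[K] C) (s : C →ₗ[K] A) (V : Submodule K A) (S : Set C) (c : C) : Prop :=
  InSpan K S c ∧ ∀ x ∈ V, act p s c x ∈ V

/-- Consider the linear combinations of elements of `S` whose operators map `V` to itself. If the
operator of one of them commutes on `V` with the operators of all of them and is skew for the
pairing `q`, `q (c x, y) = - q (x, c y)` for `x` and `y` in `V`, then it is zero on `V`. -/
def NoSkewCentreOn (p : A →ₐ[K] C) (s : C →ₗ[K] A) (q : A → A → K) (V : Submodule K A)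
    (S : Set C) : Prop :=
  ∀ c, Acts p s V S c →
    (∀ d, Acts p s V S d → ∀ x ∈ V, act p s c (act p s d x) = act p s d (act p s c x)) →
    (∀ x ∈ V, ∀ y ∈ V, q (act p s c x) y = - q x (act p s c y)) → ∀ x ∈ V, act p s c x = 0

/-- The subspace spanned by the products of `p a` and `q b` for `a` in `U` and `b` in `V`. -/
def extSpan {K A B C : Type*} [Field K] [Ring A] [Algebra K A] [Ring B] [Algebra K B] [Ring C]
    [Algebra K C] (p : A →ₐ[K] C) (q : B →ₐ[K] C) (U : Submodule K A) (V : Submodule K B) :
    Submodule K C :=
  Submodule.span K {c | ∃ a ∈ U, ∃ b ∈ V, c = p a * q b}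

/-- The pairing `tr (l · x · y)` on `V` is the restriction of a polarisation of the Hodge structure
with the decomposition `pq`. -/
def PolarisesOn [Algebra K ℂ] (d : ℕ) (tr : A →ₗ[K] K) (pq : ℤ → ℤ → Submodule ℂ (Ext K ℂ A))
    (V : Submodule K A) (l : A) : Prop :=
  IsRealDec d pq ∧ ∃ φ : A →ₗ[K] A, IsPolForm tr φ pq ∧ ∀ x ∈ V, φ x = l * x

/-- The dimension of the space of the elements of `V` which are linear combinations of elements
of `S`. -/
noncomputable def rankIn (V : Submodule K A) (S : Set A) : ℕ :=
  Set.finrank K {c | c ∈ V ∧ InSpan K S c}

/-- All elements of `S` which lie in `V` are linear combinations of elements of `S'`. -/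
def AllIn (V : Submodule K A) (S S' : Set A) : Prop := ∀ c ∈ V, c ∈ S → InSpan K S' c

end Alg

open Pool.Agent.H914 Pool.Agent.H914.VarClass Pool.Agent.H914.VarClass.Obj
  Pool.Agent.H914.WeilCohomology
open Pool.Agent.Y133.Half (pw algSet)

variable {k : Type u} [Field k] {𝒱 : VarClass k} {ops : CycleOps 𝒱} (X : 𝒱.Obj)

/-- The tensors in the cohomology of degree `i`: the subspace of the cohomology of the product of
`m + 1` copies of `X` spanned by the external products of `m + 1` classes of degree `i`. -/
noncomputable def tens (W : WeilCohomology.{u, v} ops) (i : ℕ) :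
    (m : ℕ) → Submodule W.K (W.H (pw X m))
  | 0 => W.gr X i
  | m + 1 => extSpan (W.map (fst (pw X m) X)) (W.map (snd (pw X m) X)) (tens W i m) (W.gr X i)

/-- The pairing `tr (l · x · y)` given by the class `l` is a polarisation of the first cohomology of
`X`: it is the restriction of a polarisation of the cohomology of `X`. -/
def PolarisedBy (T : HodgeTheory ops) (l : T.W.H X) : Prop :=
  PolarisesOn X.dim (T.W.tr X) (T.pq X) (T.W.gr X 1) l

/-- There is no part of type IV: the centre of the algebra of the endomorphisms of `H^1(X)` given by
Hodge classes on `X × X` has no nonzero elements which are skew for the pairing `tr (l · x · y)`.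
(For an abelian variety with a polarisation this means that the centre of its endomorphism algebra
is a product of totally real fields.) -/
def NoTypeIV (T : HodgeTheory ops) (l : T.W.H X) : Prop :=
  NoSkewCentreOn (T.W.map (fst X X)) (T.W.push (snd X X)) (fun x y => T.W.tr X (l * x * y))
    (T.W.gr X 1) (hodgeSet T (X.prod X))

/-- The dimension of the first cohomology of `X`. -/
noncomputable def firstBetti (T : HodgeTheory ops) : ℕ := Module.finrank T.W.K (T.W.gr X 1)

/-- The dimension of the space of the Hodge classes in the tensor power of degree `m + 1` of the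
first cohomology of `X`. -/
noncomputable def hodgeTensors (T : HodgeTheory ops) (m : ℕ) : ℕ :=
  rankIn (tens X T.W 1 m) (hodgeSet T (pw X m))

/-- The dimension of the space of the linear combinations of classes of algebraic cycles in the
tensor power of degree `m + 1` of the first cohomology of `X`. -/
noncomputable def algTensors (T : HodgeTheory ops) (m : ℕ) : ℕ :=
  rankIn (tens X T.W 1 m) (algSet T.W (pw X m))

/-- The Hodge classes in the tensor power of degree `m + 1` of the first cohomology of `X` are
linear combinations of classes of algebraic cycles. -/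
def TensorsAlgebraic (T : HodgeTheory ops) (m : ℕ) : Prop :=
  AllIn (tens X T.W 1 m) (hodgeSet T (pw X m)) (algSet T.W (pw X m))

end Pool.Agent.Q60.AB
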