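import Pool.Agent.Q60.AB.Main
import Pool.Agent.Q60.AB.ADefs

/-!
# The bound for the index in the tensors of the cohomology of one degree
-/

open CategoryTheory AlgebraicGeometry TensorProduct

set_option linter.unusedSectionVars false

universe u v

namespace Pool.Agent.Q60.AB

open Module Matrix
open Pool.Agent.H914 Pool.Agent.H914.VarClass Pool.Agent.H914.VarClass.Obj
  Pool.Agent.H914.WeilCohomology
open Pool.Agent.Y133.Half Pool.Agent.Y121.AH Pool.Agent.Q60.ED Pool.Agent.Q60.HD Pool.Agent.Q60.FI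

variable {k : Type u} [Field k] {𝒱 : VarClass k} {ops : CycleOps 𝒱}

variable {T : HodgeTheory ops} {X : 𝒱.Obj} {ι : Type} [Fintype ι] [DecidableEq ι]
  (e : Basis ι T.W.K (T.W.H X)) {dg : ι → ℕ}

lemma sum_fin2 {κ M : Type*} [Fintype κ] [AddCommMonoid M] (F : (Fin 2 → κ) → M) :
    ∑ I, F I = ∑ a, ∑ b, F ![a, b] := by
  rw [← (finTwoArrowEquiv κ).symm.sum_comp, Fintype.sum_prod_type]
  rfl

/-- **The bound for the index.** -/
theorem deg_bound (he : ∀ j, e j ∈ T.W.gr X (dg j)) (hR : RealH T X)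
    {φ : Module.End T.W.K (T.W.H X)} (hφ : IsPol T X φ) (i : ℕ) (S : Sys T.W)
    (hS : ∀ Z, S.C Z ≤ (hodgeSys T).C Z) {ψ : Module.End T.W.K (T.W.H X)} (hψ : ψ ∈ S.Op X X)
    (hψφ : ∀ x ∈ T.W.gr X i, ψ x = φ x)
    (h4 : crdF (gs e dg i) (hodgeSys T) 4 ≤ crdF (gs e dg i) S 4) (hcen : NoSkewDeg T X i φ)
    (n : ℕ) : finrank ℚ (crdF (gs e dg i) (hodgeSys T) (n + n)) ≤
      4 ^ (Fintype.card {j : ι // dg j = i} ^ 2) *
        finrank ℚ (crdF (gs e dg i) S (n + n)) := by
  classical
  set V := phd e he hR hφ i with hV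
  have hg : ∀ j, gs e dg i j ∈ PH T.W X i := gs_PH e he i
  have hQ : ∀ a b, ((V.Q a b : ℚ) : T.W.K) = T.W.tr X (φ (gs e dg i a) * gs e dg i b) :=
    phd_Q e he hR hφ i
  have hQ' : ∀ a b, ((V.Q a b : ℚ) : T.W.K) = T.W.tr X (ψ (gs e dg i a) * gs e dg i b) := by
    intro a b
    rw [hQ, hψφ _ (gs_mem e he i a)]
  have hT : ∀ m, V.T m = crdF (gs e dg i) (hodgeSys T) m := phd_T e he hR hφ i
  have hdet : V.Q.det ≠ 0 := PHS.det_Q (V := V)
  -- the Hodge tensors of degree two
  have h2 : V.T 2 ≤ crdF (gs e dg i) S 2 := by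
    intro t ht
    rw [hT] at ht
    rcases isEmpty_or_nonempty {j : ι // dg j = i} with hem | hne
    · have h0 : t = 0 := by
        funext I
        exact hem.elim (I 0)
      rw [h0]
      exact Submodule.zero_mem _
    · have hOm : PHS.Om V.Q ∈ crdF (gs e dg i) (hodgeSys T) 2 := by
        rw [← hT]
        exact PHS.Om_mem
      have hOm' := crdF_perm hg (Equiv.swap (0 : Fin 2) 1) hOm
      have h5 : ED.tmul (fun J => PHS.Om V.Q (J ∘ Equiv.swap (0 : Fin 2) 1)) t ∈
          crdF (gs e dg i) S (2 + 2) := h4 (crdF_mul hOm' ht)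
      have h6 := crdF_con hψ hQ' h5
      have h7 : (fun J => ∑ I : Fin 2 → {j : ι // dg j = i}, V.Q (I 0) (I 1) *
          ED.tmul (fun J => PHS.Om V.Q (J ∘ Equiv.swap (0 : Fin 2) 1)) t (Fin.append I J)) =
          (Fintype.card {j : ι // dg j = i} : ℚ) • t := by
        funext J
        have h8 : ∀ I : Fin 2 → {j : ι // dg j = i}, V.Q (I 0) (I 1) *
            ED.tmul (fun J => PHS.Om V.Q (J ∘ Equiv.swap (0 : Fin 2) 1)) t (Fin.append I J) =
              V.Q (I 0) (I 1) * V.Q⁻¹ (I 1) (I 0) * t J := by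
          intro I
          simp only [ED.tmul, Fin.append_left, Fin.append_right, PHS.Om, Function.comp,
            Equiv.swap_apply_left, Equiv.swap_apply_right, mul_assoc]
        simp only [h8]
        rw [← Finset.sum_mul, sum_fin2, Pi.smul_apply, smul_eq_mul]
        congr 1
        have h9 : V.Q * V.Q⁻¹ = 1 := Matrix.mul_nonsing_inv _ (isUnit_iff_ne_zero.2 hdet)
        have h10 : (V.Q * V.Q⁻¹).trace = (Fintype.card {j : ι // dg j = i} : ℚ) := by
          rw [h9, Matrix.trace_one]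
        rw [← h10, Matrix.trace]
        refine Finset.sum_congr rfl fun a _ => ?_
        rw [Matrix.diag_apply, Matrix.mul_apply]
        rfl
      rw [h7] at h6
      have hc0 : (Fintype.card {j : ι // dg j = i} : ℚ) ≠ 0 := by
        exact_mod_cast Fintype.card_ne_zero
      have h11 := Submodule.smul_mem (crdF (gs e dg i) S 2)
        ((Fintype.card {j : ι // dg j = i} : ℚ)⁻¹) h6
      rwa [smul_smul, inv_mul_cancel₀ hc0, one_smul] at h11
  let P : PSys V.Q :=
    { S := crdF (gs e dg i) S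
      one := mem_crdF_zero _ _
      mul := fun hs ht => crdF_mul hs ht
      perm := fun σ _ ht => crdF_perm hg σ ht
      contr := fun hs ht => crdF_contr hg hψ hQ' hs ht
      cas := h2 PHS.Om_mem }
  let P' : PSys V.Q :=
    { S := crdF (gs e dg i) (hodgeSys T)
      one := mem_crdF_zero _ _
      mul := fun hs ht => crdF_mul hs ht
      perm := fun σ _ ht => crdF_perm hg σ ht
      contr := fun hs ht => crdF_contr hg hφ.mem hQ hs ht
      cas := by
        rw [← hT]
        exact PHS.Om_mem }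
  have hle : ∀ m, P.S m ≤ V.T m := by
    intro m
    rw [hT]
    intro t ht Z f
    exact hS _ (ht Z f)
  have key := hodge_bound V P P' hle (fun m => (hT m).symm) h2 (by rw [hT]; exact h4)
    (fun c hc hcom hsk => cen_deg e he hR hφ i hcen c hc hcom hsk) n
  rw [hT] at key
  exact key

section classes

variable (W : WeilCohomology.{u, v} ops) (X)

lemma tens_gr (i m : ℕ) : tens X W i m ≤ W.gr (pw X m) ((m + 1) * i) := by
  induction m with
  | zero => rw [zero_add, one_mul]; exact le_rfl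
  | succ m ih =>
    rw [tens, extSpan, Submodule.span_le]
    rintro _ ⟨a, ha, b, hb, rfl⟩
    have h1 := W.mul_mem (W.map_mem (fst (pw X m) X) (ih ha)) (W.map_mem (snd (pw X m) X) hb)
    have h2 : (m + 1) * i + i = (m + 1 + 1) * i := by ring
    rw [h2] at h1
    exact h1

end classes

section span

variable {W : WeilCohomology.{u, v} ops} {X : 𝒱.Obj} {ι : Type} [Fintype ι] [DecidableEq ι]
  (e : Basis ι W.K (W.H X)) {dg : ι → ℕ}

lemma span_gs (he : ∀ j, e j ∈ W.gr X (dg j)) (i : ℕ) :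
    W.gr X i = Submodule.span W.K (Set.range (gs e dg i)) := by
  apply le_antisymm
  · intro x hx
    rw [← e.sum_repr x]
    refine Submodule.sum_mem _ fun a _ => ?_
    by_cases ha : dg a = i
    · exact Submodule.smul_mem _ _ (Submodule.subset_span ⟨⟨a, ha⟩, rfl⟩)
    · rw [repr_zero e he hx ha, zero_smul]
      exact Submodule.zero_mem _
  · rw [Submodule.span_le]
    rintro _ ⟨j, rfl⟩
    exact gs_mem e he i j

/-- The bilinear map of the external product. -/
noncomputable def xpB (W : WeilCohomology.{u, v} ops) (Y X : 𝒱.Obj) :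
    W.H Y →ₗ[W.K] W.H X →ₗ[W.K] W.H (Y.prod X) :=
  (LinearMap.mul W.K (W.H (Y.prod X))).compl₁₂ (W.map (fst Y X)).toLinearMap
    (W.map (snd Y X)).toLinearMap

lemma xpB_apply (Y X : 𝒱.Obj) (a : W.H Y) (b : W.H X) :
    xpB W Y X a b = W.map (fst Y X) a * W.map (snd Y X) b := rfl

lemma tens_eq (he : ∀ j, e j ∈ W.gr X (dg j)) (i m : ℕ) :
    tens X W i m = Submodule.span W.K (Set.range (wdF (gs e dg i) (prj X m))) := by
  induction m with
  | zero =>
    rw [tens, span_gs e he i]
    congr 1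
    ext x
    constructor
    · rintro ⟨j, rfl⟩
      exact ⟨fun _ => j, wdF_prj_zero _ _⟩
    · rintro ⟨w, rfl⟩
      exact ⟨w 0, (wdF_prj_zero _ _).symm⟩
  | succ m ih =>
    have h1 : tens X W i (m + 1) =
        Submodule.map₂ (xpB W (pw X m) X) (tens X W i m) (W.gr X i) := by
      rw [Submodule.map₂_eq_span_image2, tens, extSpan]
      congr 1
      ext c
      constructor
      · rintro ⟨a, ha, b, hb, rfl⟩
        exact ⟨a, ha, b, hb, rfl⟩
      · rintro ⟨a, ha, b, hb, rfl⟩
        exact ⟨a, ha, b, hb, rfl⟩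
    rw [h1, ih, span_gs e he i, Submodule.map₂_span_span]
    congr 1
    ext c
    constructor
    · rintro ⟨_, ⟨w, rfl⟩, _, ⟨j, rfl⟩, rfl⟩
      refine ⟨Fin.snoc (α := fun _ => {j : ι // dg j = i}) w j, ?_⟩
      rw [wdF_prj_succ]
      simp only [Fin.snoc_castSucc, Fin.snoc_last]
      rfl
    · rintro ⟨w, rfl⟩
      rw [wdF_prj_succ]
      exact ⟨_, ⟨_, rfl⟩, _, ⟨_, rfl⟩, rfl⟩

end span

/-- The dimension of the space of the tensors of a system. -/
lemma finrank_crdF (he : ∀ j, e j ∈ T.W.gr X (dg j)) (i : ℕ) (S : Sys T.W) (m : ℕ) :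
    finrank ℚ (crdF (gs e dg i) S (m + 1)) =
      finrank T.W.K (S.C (pw X m) ⊓ tens X T.W i m : Submodule T.W.K (T.W.H (pw X m))) := by
  have hmem : ∀ t : (Fin (m + 1) → {j : ι // dg j = i}) → ℚ,
      clsF (gs e dg i) (prj X m) t ∈ tens X T.W i m := by
    intro t
    rw [tens_eq e he]
    exact Submodule.sum_mem _ fun w _ => Submodule.smul_mem _ _ (Submodule.subset_span ⟨w, rfl⟩)
  let f : crdF (gs e dg i) S (m + 1) →+
      (S.C (pw X m) ⊓ tens X T.W i m : Submodule T.W.K (T.W.H (pw X m))) :=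
    { toFun := fun t => ⟨clsF (gs e dg i) (prj X m) t.1, (mem_crdF_succ _).1 t.2, hmem t.1⟩
      map_zero' := Subtype.ext (clsF_zero _ _)
      map_add' := fun s t => Subtype.ext (clsF_add _ _ s.1 t.1) }
  have hinj : Function.Injective f := by
    intro s t hst
    apply Subtype.ext
    have h1 : clsF (gs e dg i) (prj X m) s.1 = clsF (gs e dg i) (prj X m) t.1 :=
      congrArg Subtype.val hst
    rw [← cls_x0, ← cls_x0] at h1
    exact x0_inj (cls_inj e m h1)
  have hsur : Function.Surjective f := by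
    rintro ⟨c, hc, hc'⟩
    have hc2 : c ∈ tens X T.W i m := hc'
    rw [tens_eq e he] at hc2
    replace hc2 := (Submodule.mem_span_range_iff_exists_fun T.W.K).1 hc2
    obtain ⟨r, hr⟩ := hc2
    have h1 : clsF (gs e dg i) (prj X m) (fun w => rt T (r w)) = c := by
      rw [← hr, clsF]
      exact Finset.sum_congr rfl fun w _ => by rw [rt_spec]
    refine ⟨⟨fun w => rt T (r w), ?_⟩, ?_⟩
    · rw [mem_crdF_succ, h1]
      exact hc
    · exact Subtype.ext h1
  refine finrank_eq_rat T.rat (AddEquiv.ofBijective f ⟨hinj, hsur⟩) fun q t => ?_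
  apply Subtype.ext
  exact clsF_smul _ (prj X m) q t.1

end Pool.Agent.Q60.AB
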