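import Pool.Agent.Q60.AB.Deg

/-!
# The contraction of two factors
-/

open CategoryTheory AlgebraicGeometry TensorProduct

set_option linter.unusedSectionVars false

universe u v

namespace Pool.Agent.Q60.AB

open Module Matrix
open Pool.Agent.H914 Pool.Agent.H914.VarClass Pool.Agent.H914.VarClass.Obj
  Pool.Agent.H914.WeilCohomology
open Pool.Agent.Y133.Half Pool.Agent.Q60.ED Pool.Agent.Q60.HD

variable {k : Type u} [Field k] {𝒱 : VarClass k} {ops : CycleOps 𝒱}

variable {W : WeilCohomology.{u, v} ops} {X Y Z : 𝒱.Obj} {κ : Type} [Fintype κ] [DecidableEq κ]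
  {g : κ → W.H X} {a : ℕ} {S : Sys W}

/-- The tensors of a system are stable under the contraction of the first two factors. -/
lemma crdF_con {φ : Module.End W.K (W.H X)} (hφ : φ ∈ S.Op X X) {Q : Matrix κ κ ℚ}
    (hQ : ∀ i j, ((Q i j : ℚ) : W.K) = W.tr X (φ (g i) * g j)) {n : ℕ}
    {u : (Fin (2 + n) → κ) → ℚ} (hu : u ∈ crdF g S (2 + n)) :
    (fun J => ∑ I : Fin 2 → κ, Q (I 0) (I 1) * u (Fin.append I J)) ∈ crdF g S n := by
  intro Z f
  set F : Fin (2 + n) → (X.prod (X.prod Z) ⟶ X) :=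
    Fin.append ![fst X (X.prod Z), snd X (X.prod Z) ≫ fst X Z]
      (fun j => snd X (X.prod Z) ≫ snd X Z ≫ f j) with hF
  have hγ := hu (X.prod (X.prod Z)) F
  have h1 := Sys.Op.apply (T := S) (fun _ => le_rfl)
    (Sys.Op.ext hφ (Sys.Op.id (S := S) (X := X.prod Z))) hγ
  have h2 := S.map (Obj.lift (fst X Z) (𝟙 (X.prod Z))) h1
  have h3 := S.push (snd X Z) h2
  have e1 : ∀ (I : Fin 2 → κ) (J : Fin n → κ), wdF g F (Fin.append I J) =
      xp W (X := X) (Y := X.prod Z) (g (I 0))
        (W.map (fst X Z) (g (I 1)) * W.map (snd X Z) (wdF g f J)) := by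
    intro I J
    rw [wdF_append, xp, wdF_succ, wdF_succ, wdF_zero, mul_one, map_mul, wdF_map, wdF_map, mul_assoc,
      ← W.map_comp]
    simp only [hF, Fin.append_left, Fin.append_right]
    rfl
  have e2 : ∀ (I : Fin 2 → κ) (J : Fin n → κ),
      W.push (snd X Z) (W.map (Obj.lift (fst X Z) (𝟙 (X.prod Z)))
        (extOp W φ LinearMap.id (wdF g F (Fin.append I J)))) =
          ((Q (I 0) (I 1) : ℚ) : W.K) • wdF g f J := by
    intro I J
    have e3 : extOp W φ LinearMap.id (wdF g F (Fin.append I J)) =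
        xp W (X := X) (Y := X.prod Z) (φ (g (I 0)))
          (W.map (fst X Z) (g (I 1)) * W.map (snd X Z) (wdF g f J)) := by
      rw [e1]
      exact extOp_tmul (W := W) _ _ _ _
    rw [e3, xp, map_mul, ← W.map_comp, ← W.map_comp, Obj.lift_fst, Obj.lift_snd, W.map_id,
      ← mul_assoc, ← map_mul, push_snd, hQ]
  have e4 : W.push (snd X Z) (W.map (Obj.lift (fst X Z) (𝟙 (X.prod Z)))
      (extOp W φ LinearMap.id (clsF g F u))) =
        clsF g f (fun J => ∑ I : Fin 2 → κ, Q (I 0) (I 1) * u (Fin.append I J)) := by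
    rw [clsF, map_sum, map_sum, map_sum, sum_append', Finset.sum_comm, clsF]
    refine Finset.sum_congr rfl fun J _ => ?_
    rw [Rat.cast_sum, Finset.sum_smul]
    refine Finset.sum_congr rfl fun I _ => ?_
    rw [map_smul, map_smul, map_smul, e2, smul_smul, Rat.cast_mul, mul_comm]
  rw [← e4]
  exact h3

end Pool.Agent.Q60.AB
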