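import Pool.Agent.Q60.HD.Ctr

/-!
# Systems of classes in the coordinates given by a family of classes of constant parity
-/

open CategoryTheory AlgebraicGeometry TensorProduct

set_option linter.unusedSectionVars false

universe u v

namespace Pool.Agent.Q60.AB

open Module Matrix
open Pool.Agent.H914 Pool.Agent.H914.VarClass Pool.Agent.H914.VarClass.Obj
  Pool.Agent.H914.WeilCohomology
open Pool.Agent.Y133.Half Pool.Agent.Q60.ED Pool.Agent.Q60.HD

variable {k : Type u} [Field k] {𝒱 : VarClass k} {ops : CycleOps 𝒱}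

variable {W : WeilCohomology.{u, v} ops} {X Y Z : 𝒱.Obj} {κ : Type} [Fintype κ] [DecidableEq κ]
  (g : κ → W.H X)

/-- The product of the pull-backs of elements of the family. -/
noncomputable def wdF {n : ℕ} (f : Fin n → (Z ⟶ X)) (w : Fin n → κ) : W.H Z :=
  (List.ofFn fun i => W.map (f i) (g (w i))).prod

/-- The class of a rational tensor. -/
noncomputable def clsF {n : ℕ} (f : Fin n → (Z ⟶ X)) (t : (Fin n → κ) → ℚ) : W.H Z :=
  ∑ w, (t w : W.K) • wdF g f w

lemma clsF_add {n : ℕ} (f : Fin n → (Z ⟶ X)) (s t : (Fin n → κ) → ℚ) :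
    clsF g f (s + t) = clsF g f s + clsF g f t := by
  simp only [clsF, Pi.add_apply, Rat.cast_add, add_smul, Finset.sum_add_distrib]

lemma clsF_smul {n : ℕ} (f : Fin n → (Z ⟶ X)) (q : ℚ) (t : (Fin n → κ) → ℚ) :
    clsF g f (q • t) = (q : W.K) • clsF g f t := by
  simp only [clsF, Pi.smul_apply, smul_eq_mul, Rat.cast_mul, Finset.smul_sum, smul_smul]

lemma clsF_zero {n : ℕ} (f : Fin n → (Z ⟶ X)) : clsF g f (0 : (Fin n → κ) → ℚ) = 0 := by
  simp [clsF]

lemma wdF_zero (f : Fin 0 → (Z ⟶ X)) (w : Fin 0 → κ) : wdF g f w = 1 := by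
  rw [wdF, List.ofFn_zero, List.prod_nil]

lemma wdF_succ {n : ℕ} (f : Fin (n + 1) → (Z ⟶ X)) (w : Fin (n + 1) → κ) :
    wdF g f w = W.map (f 0) (g (w 0)) * wdF g (fun i => f i.succ) (fun i => w i.succ) := by
  rw [wdF, List.ofFn_succ, List.prod_cons, wdF]

lemma wdF_map {n : ℕ} (h : Y ⟶ Z) (f : Fin n → (Z ⟶ X)) (w : Fin n → κ) :
    W.map h (wdF g f w) = wdF g (fun i => h ≫ f i) w := by
  rw [wdF, map_list_prod, List.map_ofFn, wdF]
  congr 2
  funext i
  rw [Function.comp_apply, W.map_comp]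

lemma clsF_map {n : ℕ} (h : Y ⟶ Z) (f : Fin n → (Z ⟶ X)) (t : (Fin n → κ) → ℚ) :
    W.map h (clsF g f t) = clsF g (fun i => h ≫ f i) t := by
  rw [clsF, map_sum]
  exact Finset.sum_congr rfl fun w _ => by rw [map_smul, wdF_map]

lemma wdF_prj_zero (w : Fin 1 → κ) : wdF g (prj X 0) w = g (w 0) := by
  rw [wdF_succ, wdF_zero, mul_one, prj_zero]
  exact W.map_id _ _

lemma wdF_prj_succ (n : ℕ) (w : Fin (n + 2) → κ) : wdF g (prj X (n + 1)) w =
    xp W (X := pw X n) (Y := X) (wdF g (prj X n) fun i => w i.castSucc) (g (w (Fin.last _))) := by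
  rw [wdF, List.ofFn_succ', List.prod_concat, prj_last, xp, wdF_map, wdF]
  congr 3
  funext i
  rw [prj_castSucc]
  rfl

/-- The tensors whose classes belong to the system. -/
noncomputable def crdF (S : Sys W) (n : ℕ) : Submodule ℚ ((Fin n → κ) → ℚ) where
  carrier := {t | ∀ (Z : 𝒱.Obj) (f : Fin n → (Z ⟶ X)), clsF g f t ∈ S.C Z}
  add_mem' ha hb Z f := by rw [clsF_add]; exact Submodule.add_mem _ (ha Z f) (hb Z f)
  zero_mem' Z f := by rw [clsF_zero]; exact Submodule.zero_mem _
  smul_mem' q t ht Z f := by rw [clsF_smul]; exact Submodule.smul_mem _ _ (ht Z f)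

lemma mem_crdF {S : Sys W} {n : ℕ} {t : (Fin n → κ) → ℚ} :
    t ∈ crdF g S n ↔ ∀ (Z : 𝒱.Obj) (f : Fin n → (Z ⟶ X)), clsF g f t ∈ S.C Z := Iff.rfl

lemma mem_crdF_zero {S : Sys W} (t : (Fin 0 → κ) → ℚ) : t ∈ crdF g S 0 := by
  intro Z f
  rw [clsF]
  refine Submodule.sum_mem _ fun w _ => ?_
  rw [wdF_zero]
  exact Submodule.smul_mem _ _ (S.one Z)

lemma mem_crdF_succ {S : Sys W} {n : ℕ} {t : (Fin (n + 1) → κ) → ℚ} :
    t ∈ crdF g S (n + 1) ↔ clsF g (prj X n) t ∈ S.C (pw X n) := by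
  constructor
  · intro h; exact h _ _
  · intro h Z f
    have h1 := S.map (liftN X n f) h
    rw [clsF_map] at h1
    have h2 : (fun i => liftN X n f ≫ prj X n i) = f := funext fun i => liftN_prj n f i
    rwa [h2] at h1

lemma wdF_append {m n : ℕ} (f : Fin (m + n) → (Z ⟶ X)) (I : Fin m → κ) (J : Fin n → κ) :
    wdF g f (Fin.append I J) = wdF g (fun i => f (Fin.castAdd n i)) I *
      wdF g (fun j => f (Fin.natAdd m j)) J := by
  have h1 : (fun i => W.map (f i) (g (Fin.append I J i))) =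
      Fin.append (fun i => W.map (f (Fin.castAdd n i)) (g (I i)))
        (fun j => W.map (f (Fin.natAdd m j)) (g (J j))) := by
    funext i
    refine Fin.addCases (fun i => ?_) (fun j => ?_) i
    · rw [Fin.append_left, Fin.append_left]
    · rw [Fin.append_right, Fin.append_right]
  rw [wdF, h1, List.ofFn_fin_append, List.prod_append]
  rfl

variable {g} {a : ℕ} {S : Sys W}

lemma wdF_PH (hg : ∀ j, g j ∈ PH W X a) {n : ℕ} (f : Fin n → (Z ⟶ X)) (w : Fin n → κ) :
    wdF g f w ∈ PH W Z (n * a) := by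
  induction n with
  | zero =>
    rw [wdF_zero, zero_mul]
    exact PH.of' rfl (W.one_mem Z)
  | succ n ih =>
    rw [wdF_succ, add_mul, one_mul, add_comm]
    exact PH.mul (PH.map _ (hg _)) (ih _ _)

/-- Products of classes of the same parity in a different order. -/
lemma list_permF {n : ℕ} (a : ℕ) {l l' : List (Fin n)} (h : l.Perm l') :
    ∃ s : ℚ, ∀ (Z : 𝒱.Obj) (x : Fin n → W.H Z), (∀ i, x i ∈ PH W Z a) →
      (l.map x).prod = (s : W.K) • (l'.map x).prod := by
  induction h with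
  | nil => exact ⟨1, fun Z x _ => by simp⟩
  | cons i _ ih =>
    obtain ⟨s, h⟩ := ih
    refine ⟨s, fun Z x hx => ?_⟩
    rw [List.map_cons, List.map_cons, List.prod_cons, List.prod_cons, h Z x hx, mul_smul_comm]
  | swap i j l =>
    refine ⟨(-1) ^ (a * a), fun Z x hx => ?_⟩
    rw [List.map_cons, List.map_cons, List.map_cons, List.map_cons, List.prod_cons,
      List.prod_cons, List.prod_cons, List.prod_cons, ← mul_assoc, PH.comm (hx j) (hx i),
      smul_mul_assoc, mul_assoc]
    push_cast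
    rfl
  | trans _ _ ih1 ih2 =>
    obtain ⟨s, h⟩ := ih1
    obtain ⟨s', h'⟩ := ih2
    refine ⟨s * s', fun Z x hx => ?_⟩
    rw [h Z x hx, h' Z x hx, smul_smul, Rat.cast_mul]

/-- The tensors of a system are stable under permutations of the factors. -/
lemma crdF_perm (hg : ∀ j, g j ∈ PH W X a) {n : ℕ} (σ : Equiv.Perm (Fin n))
    {t : (Fin n → κ) → ℚ} (ht : t ∈ crdF g S n) : (fun J => t (J ∘ σ)) ∈ crdF g S n := by
  have hp : (List.ofFn σ.symm).Perm (List.ofFn (id : Fin n → Fin n)) :=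
    Equiv.Perm.ofFn_comp_perm σ.symm id
  obtain ⟨s, h⟩ := list_permF (W := W) a hp
  intro Z f
  have h1 : clsF g f (fun J => t (J ∘ σ)) = (s : W.K) • clsF g (f ∘ σ) t := by
    rw [clsF, clsF, ← (Equiv.arrowCongr σ (Equiv.refl κ)).sum_comp, Finset.smul_sum]
    refine Finset.sum_congr rfl fun v _ => ?_
    have e1 : (Equiv.arrowCongr σ (Equiv.refl κ)) v = v ∘ σ.symm := rfl
    have e2 : (v ∘ σ.symm) ∘ σ = v := by funext i; simp
    have e3 := h Z (fun i => W.map (f (σ i)) (g (v i))) fun i => PH.map _ (hg _)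
    rw [List.map_ofFn, List.map_ofFn] at e3
    have e4 : wdF g f (v ∘ σ.symm) =
        (List.ofFn ((fun i => W.map (f (σ i)) (g (v i))) ∘ σ.symm)).prod := by
      rw [wdF]
      congr 2
      funext i
      simp
    rw [e1]
    rw [e2, e4, e3, smul_smul, smul_smul, mul_comm]
    rfl
  rw [h1]
  exact Submodule.smul_mem _ _ (ht _ _)

/-- The tensors of a system are stable under products. -/
lemma crdF_mul {m n : ℕ} {s : (Fin m → κ) → ℚ} {t : (Fin n → κ) → ℚ} (hs : s ∈ crdF g S m)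
    (ht : t ∈ crdF g S n) : tmul s t ∈ crdF g S (m + n) := by
  intro Z f
  have h1 : clsF g f (tmul s t) = clsF g (fun i => f (Fin.castAdd n i)) s *
      clsF g (fun j => f (Fin.natAdd m j)) t := by
    rw [clsF, clsF, clsF, Finset.sum_mul_sum, sum_append']
    refine Finset.sum_congr rfl fun I _ => Finset.sum_congr rfl fun J _ => ?_
    rw [wdF_append, smul_mul_smul_comm]
    congr 1
    simp only [ED.tmul, Fin.append_left, Fin.append_right, Rat.cast_mul]
  rw [h1]
  exact S.mul (hs _ _) (ht _ _)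

/-- The operator which gives the tensor power of a form. -/
lemma exists_psiF (hg : ∀ j, g j ∈ PH W X a) {φ : Module.End W.K (W.H X)} (hφ : φ ∈ S.Op X X)
    {Q : Matrix κ κ ℚ} (hQ : ∀ i j, ((Q i j : ℚ) : W.K) = W.tr X (φ (g i) * g j)) (n : ℕ) :
    ∃ Ψ ∈ S.Op (pw X n) (pw X n), ∀ I J : Fin (n + 1) → κ,
      W.tr (pw X n) (Ψ (wdF g (prj X n) I) * wdF g (prj X n) J) =
        ((TP Q (n + 1) I J : ℚ) : W.K) := by
  induction n with
  | zero =>
    refine ⟨φ, hφ, fun I J => ?_⟩
    rw [wdF_prj_zero, wdF_prj_zero, TP_apply, Fin.prod_univ_succ, Fin.prod_univ_zero, mul_one, hQ]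
    rfl
  | succ n ih =>
    obtain ⟨Ψ, hΨ, h⟩ := ih
    have hm : ((-1 : W.K) ^ (a * ((n + 1) * a))) • extOp W Ψ φ ∈
        S.Op ((pw X n).prod X) ((pw X n).prod X) := Submodule.smul_mem _ _ (Sys.Op.ext hΨ hφ)
    refine ⟨((-1 : W.K) ^ (a * ((n + 1) * a))) • extOp W Ψ φ, hm, fun I J => ?_⟩
    set I' : Fin (n + 1) → κ := fun i => I i.castSucc with hI'
    set J' : Fin (n + 1) → κ := fun i => J i.castSucc with hJ'
    have hx' := wdF_PH hg (prj X n) J'
    have hφy := Sys.Op.ev hφ _ _ (hg (I (Fin.last _)))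
    have e1 : (((-1 : W.K) ^ (a * ((n + 1) * a))) • extOp W Ψ φ) (xp W (X := pw X n) (Y := X)
        (wdF g (prj X n) I') (g (I (Fin.last _)))) = ((-1 : W.K) ^ (a * ((n + 1) * a))) •
          xp W (Ψ (wdF g (prj X n) I')) (φ (g (I (Fin.last _)))) := by
      rw [LinearMap.smul_apply]
      congr 1
      exact extOp_tmul (W := W) _ _ _ _
    have e2 : W.tr ((pw X n).prod X) ((((-1 : W.K) ^ (a * ((n + 1) * a))) • extOp W Ψ φ)
        (xp W (X := pw X n) (Y := X) (wdF g (prj X n) I') (g (I (Fin.last _)))) *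
        xp W (X := pw X n) (Y := X) (wdF g (prj X n) J') (g (J (Fin.last _)))) =
        ((TP Q (n + 1 + 1) I J : ℚ) : W.K) := by
      rw [e1, smul_mul_assoc, xp_mul _ _ _ _ hφy hx', map_smul, map_smul, tr_xp, h, ← hQ,
        smul_eq_mul, smul_eq_mul]
      have e3 : TP Q (n + 1 + 1) I J = TP Q (n + 1) I' J' * Q (I (Fin.last _)) (J (Fin.last _)) := by
        rw [TP_apply, TP_apply, Fin.prod_univ_castSucc]
      rw [e3, Rat.cast_mul, ← mul_assoc, ← mul_pow, neg_one_mul, neg_neg, one_pow, one_mul]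
    rw [wdF_prj_succ, wdF_prj_succ]
    exact e2

/-- The tensors of a system are stable under contractions. -/
lemma crdF_contr (hg : ∀ j, g j ∈ PH W X a) {φ : Module.End W.K (W.H X)} (hφ : φ ∈ S.Op X X)
    {Q : Matrix κ κ ℚ} (hQ : ∀ i j, ((Q i j : ℚ) : W.K) = W.tr X (φ (g i) * g j)) {m n : ℕ}
    {s : (Fin m → κ) → ℚ} {t : (Fin (m + n) → κ) → ℚ} (hs : s ∈ crdF g S m)
    (ht : t ∈ crdF g S (m + n)) :
    (fun J => ∑ I, ∑ I', s I * TP Q m I I' * t (Fin.append I' J)) ∈ crdF g S n := by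
  intro Z f
  cases m with
  | zero =>
    have h1 := ht Z fun i => f (Fin.cast (zero_add n) i)
    have h2 : clsF g f (fun J => ∑ I, ∑ I', s I * TP Q 0 I I' * t (Fin.append I' J)) =
        ((∑ I, s I : ℚ) : W.K) • clsF g (fun i => f (Fin.cast (zero_add n) i)) t := by
      have hu : ∀ g : (Fin 0 → κ) → W.H Z, ∑ I, g I = g default := fun g => Fintype.sum_unique g
      have hu' : ∀ g : (Fin 0 → κ) → ℚ, ∑ I, g I = g default := fun g => Fintype.sum_unique g
      rw [clsF, clsF, sum_append', hu, Finset.smul_sum]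
      refine Finset.sum_congr rfl fun J _ => ?_
      rw [hu', hu', hu', smul_smul]
      have h3 : TP Q 0 (default : Fin 0 → κ) default = 1 := by
        rw [TP_apply, Finset.univ_eq_empty, Finset.prod_empty]
      rw [h3, mul_one, Rat.cast_mul]
      congr 1
      rw [wdF_append, wdF_zero, one_mul]
      congr 1
      funext i
      congr 1
      ext
      simp
    rw [h2]
    exact Submodule.smul_mem _ _ h1
  | succ m =>
    obtain ⟨Ψ, hΨ, h⟩ := exists_psiF hg hφ hQ m
    set F : Fin (m + 1 + n) → ((pw X m).prod Z ⟶ X) :=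
      Fin.append (fun i => fst (pw X m) Z ≫ prj X m i) (fun j => snd (pw X m) Z ≫ f j) with hF
    have hγ := ht ((pw X m).prod Z) F
    have hz := Sys.Op.apply (T := S) (fun _ => le_rfl) hΨ (mem_crdF_succ (g := g).1 hs)
    set z := Ψ (clsF g (prj X m) s) with hzdef
    have h1 := Sys.Op.apply (T := S) (fun _ => le_rfl) (Sys.Op.corr hγ) hz
    have h2 : W.corr (clsF g F t) z =
        clsF g f (fun J => ∑ I, ∑ I', s I * TP Q (m + 1) I I' * t (Fin.append I' J)) := by
      have hz0 : z ∈ PH W (pw X m) 0 := S.even hz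
      have e1 : ∀ I' : Fin (m + 1) → κ, W.tr (pw X m) (z * wdF g (prj X m) I') =
          ((∑ I, s I * TP Q (m + 1) I I' : ℚ) : W.K) := by
        intro I'
        rw [hzdef, clsF, map_sum, Finset.sum_mul, map_sum, Rat.cast_sum]
        refine Finset.sum_congr rfl fun I _ => ?_
        rw [map_smul, smul_mul_assoc, map_smul, h, smul_eq_mul, Rat.cast_mul]
      have e2 : ∀ (I' : Fin (m + 1) → κ) (J : Fin n → κ),
          W.corr (wdF g F (Fin.append I' J)) z =
            ((∑ I, s I * TP Q (m + 1) I I' : ℚ) : W.K) • wdF g f J := by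
        intro I' J
        have e3 : wdF g F (Fin.append I' J) =
            xp W (X := pw X m) (wdF g (prj X m) I') (wdF g f J) := by
          rw [wdF_append, xp, wdF_map, wdF_map]
          simp only [hF, Fin.append_left, Fin.append_right]
        rw [e3, corr_xp _ (wdF_PH hg f J) hz0, mul_zero, pow_zero, one_mul,
          ← PH.even_comm hz0, e1]
      have e4 : W.corr (clsF g F t) z = ∑ L, (t L : W.K) • W.corr (wdF g F L) z := by
        rw [clsF]
        have e5 := map_sum (corrL W (pw X m) Z) (fun L => (t L : W.K) • wdF g F L) Finset.univ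
        have e6 := congrArg (fun G : W.H (pw X m) →ₗ[W.K] W.H Z => G z) e5
        refine e6.trans ?_
        rw [LinearMap.sum_apply]
        refine Finset.sum_congr rfl fun L _ => ?_
        rw [map_smul, LinearMap.smul_apply]
        rfl
      rw [e4, sum_append', Finset.sum_comm, clsF]
      refine Finset.sum_congr rfl fun J _ => ?_
      rw [Finset.sum_comm, Rat.cast_sum, Finset.sum_smul]
      refine Finset.sum_congr rfl fun I' _ => ?_
      rw [e2, smul_smul, ← Rat.cast_mul, mul_comm, Finset.sum_mul]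
    rw [← h2]
    exact h1

end Pool.Agent.Q60.AB
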