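import Pool.Agent.Q60.AB.Sub
import Pool.Agent.Q60.AB.Fam
import Pool.Agent.Q60.FI.HdgM

/-!
# The cohomology of one degree as a sub-Hodge structure
-/

open CategoryTheory AlgebraicGeometry TensorProduct

set_option linter.unusedSectionVars false

universe u v

namespace Pool.Agent.Q60.AB

open Module Matrix
open Pool.Agent.H914 Pool.Agent.H914.VarClass Pool.Agent.H914.VarClass.Obj
  Pool.Agent.H914.WeilCohomology
open Pool.Agent.Y133.Half Pool.Agent.Y121.AH Pool.Agent.Q60.ED Pool.Agent.Q60.HD Pool.Agent.Q60.FI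

variable {k : Type u} [Field k] {𝒱 : VarClass k} {ops : CycleOps 𝒱}

/-- There is a basis consisting of homogeneous classes. -/
lemma exists_dbasis (W : WeilCohomology.{u, v} ops) (X : 𝒱.Obj) :
    ∃ (e : Basis (Fin (finrank W.K (W.H X))) W.K (W.H X)) (dg : Fin (finrank W.K (W.H X)) → ℕ),
      ∀ j, e j ∈ W.gr X (dg j) := by
  let b := (W.isInternal X).collectedBasis fun i => Module.finBasis W.K (W.gr X i)
  have h : ∀ j, ∃ a, (b.reindex (b.indexEquiv (Module.finBasis W.K (W.H X)))) j ∈ W.gr X a := by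
    intro j
    rw [Basis.reindex_apply]
    exact ⟨_, (W.isInternal X).collectedBasis_mem _ _⟩
  choose dg hdg using h
  exact ⟨_, dg, hdg⟩

section repr

variable {W : WeilCohomology.{u, v} ops} {X : 𝒱.Obj} {ι : Type} [Fintype ι] [DecidableEq ι]
  (e : Basis ι W.K (W.H X)) {dg : ι → ℕ}

lemma repr_zero (he : ∀ j, e j ∈ W.gr X (dg j)) {i : ℕ} {x : W.H X} (hx : x ∈ W.gr X i) {a : ι}
    (ha : dg a ≠ i) : e.repr x a = 0 := by
  have h1 : H914.proj (W.isInternal X) (dg a) x = 0 := proj_ne _ hx (Ne.symm ha)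
  have h2 := congrArg (fun y => e.repr y a) h1
  beta_reduce at h2
  rw [map_zero, Finsupp.zero_apply] at h2
  rw [← e.sum_repr x, map_sum, map_sum, Finsupp.coe_finsetSum, Finset.sum_apply,
    Finset.sum_eq_single a] at h2
  · rw [map_smul, proj_same _ (he a), map_smul, Finsupp.smul_apply, Basis.repr_self,
      Finsupp.single_eq_same, smul_eq_mul, mul_one] at h2
    exact h2
  · intro b _ hb
    rw [map_smul, map_smul, Finsupp.smul_apply]
    by_cases hd : dg b = dg a
    · rw [← hd, proj_same _ (he b), Basis.repr_self, Finsupp.single_eq_of_ne (Ne.symm hb),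
        smul_zero]
    · rw [proj_ne _ (he b) hd, map_zero, Finsupp.zero_apply, smul_zero]
  · intro h
    exact absurd (Finset.mem_univ _) h

lemma mem_gr_iff (he : ∀ j, e j ∈ W.gr X (dg j)) {i : ℕ} {x : W.H X} :
    x ∈ W.gr X i ↔ ∀ a, dg a ≠ i → e.repr x a = 0 := by
  constructor
  · intro hx a ha
    exact repr_zero e he hx ha
  · intro h
    rw [← e.sum_repr x]
    refine Submodule.sum_mem _ fun a _ => ?_
    by_cases ha : dg a = i
    · rw [← ha]
      exact Submodule.smul_mem _ _ (he a)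
    · rw [h a ha, zero_smul]
      exact Submodule.zero_mem _

/-- The elements of the basis of degree `i`. -/
noncomputable def gs (dg : ι → ℕ) (i : ℕ) (j : {j : ι // dg j = i}) : W.H X := e j.1

lemma gs_mem (he : ∀ j, e j ∈ W.gr X (dg j)) (i : ℕ) (j : {j : ι // dg j = i}) :
    gs e dg i j ∈ W.gr X i := by
  have h1 := he j.1
  rw [j.2] at h1
  exact h1

lemma gs_PH (he : ∀ j, e j ∈ W.gr X (dg j)) (i : ℕ) (j : {j : ι // dg j = i}) :
    gs e dg i j ∈ PH W X i := PH.of (gs_mem e he i j)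

lemma cls_x0 {Z : 𝒱.Obj} (i : ℕ) {n : ℕ} (f : Fin n → (Z ⟶ X))
    (t : (Fin n → {j : ι // dg j = i}) → ℚ) :
    cls e f (x0 t) = clsF (gs e dg i) f t := by
  rw [cls, sum_word (p := fun j => dg j = i) fun w hw => by
    rw [x0_of t hw, Rat.cast_zero, zero_smul]]
  refine Finset.sum_congr rfl fun w _ => ?_
  rw [x0_val]
  rfl

lemma mem_crdF_iff (i : ℕ) {S : Sys W} {n : ℕ} {t : (Fin n → {j : ι // dg j = i}) → ℚ} :
    t ∈ crdF (gs e dg i) S n ↔ x0 t ∈ crd e S n := by
  rw [mem_crdF, mem_crd]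
  refine forall_congr' fun Z => forall_congr' fun f => ?_
  rw [cls_x0]

end repr

variable {T : HodgeTheory ops} {X : 𝒱.Obj} {ι : Type} [Fintype ι] [DecidableEq ι]
  (e : Basis ι T.W.K (T.W.H X)) {dg : ι → ℕ}

lemma mt_zop_zero (he : ∀ j, e j ∈ T.W.gr X (dg j)) (z : ℂ) {a b : ι} (h : dg a ≠ dg b) :
    mt e (zop T z X) a b = 0 := by
  have h1 : mt e (zop T z X) a b = (eC e).repr (zop T z X (em T.W ℂ (e b))) a := by
    refine (LinearMap.toMatrix_apply (eC e) (eC e) _ a b).trans ?_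
    rw [eC_apply]
    rfl
  rw [h1]
  have h2 : zop T z X (em T.W ℂ (e b)) ∈ (T.W.gr X (dg b)).baseChange ℂ := zop_gr z (he b)
  refine base_induction (P := fun y => (eC e).repr y a = 0) ?_ ?_ ?_ h2
  · rw [map_zero, Finsupp.zero_apply]
  · intro x y hx hy
    rw [map_add, Finsupp.add_apply, hx, hy, add_zero]
  · intro l x hx
    have h3 : (eC e).repr (l ⊗ₜ[T.W.K] x) a = e.repr x a • l :=
      Basis.baseChange_repr_tmul ℂ e l x a
    rw [h3, repr_zero e he hx h, zero_smul]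

lemma blk (he : ∀ j, e j ∈ T.W.gr X (dg j)) (hR : RealH T X) {φ : Module.End T.W.K (T.W.H X)}
    (hφ : IsPol T X φ) (i : ℕ) (z : ℂ) (hz : z ≠ 0) :
    Blk (fun j => dg j = i) ((phs e hR hφ).c z) := by
  intro a b ha hb
  rw [phs_c e hR hφ hz]
  exact mt_zop_zero e he z fun h => ha (h.trans hb)

/-- The Hodge structure on the cohomology of degree `i`. -/
noncomputable def phd (he : ∀ j, e j ∈ T.W.gr X (dg j)) (hR : RealH T X)
    {φ : Module.End T.W.K (T.W.H X)} (hφ : IsPol T X φ) (i : ℕ) : PHS {j : ι // dg j = i} :=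
  sub (phs e hR hφ) (blk e he hR hφ i)

lemma phd_T (he : ∀ j, e j ∈ T.W.gr X (dg j)) (hR : RealH T X)
    {φ : Module.End T.W.K (T.W.H X)} (hφ : IsPol T X φ) (i n : ℕ) :
    (phd e he hR hφ i).T n = crdF (gs e dg i) (hodgeSys T) n := by
  ext t
  rw [phd, sub_T, mem_crdF_iff, T_eq_crd]

lemma phd_Q (he : ∀ j, e j ∈ T.W.gr X (dg j)) (hR : RealH T X)
    {φ : Module.End T.W.K (T.W.H X)} (hφ : IsPol T X φ) (i : ℕ) (a b : {j : ι // dg j = i}) :
    (((phd e he hR hφ i).Q a b : ℚ) : T.W.K) =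
      T.W.tr X (φ (gs e dg i a) * gs e dg i b) := rt_spec _

end Pool.Agent.Q60.AB
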