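import Pool.Agent.Q60.AB.Bnd
import Pool.Agent.Q60.FI.HdgL

/-!
# The bound for the index in the tensors of the first cohomology
-/

open CategoryTheory AlgebraicGeometry TensorProduct

universe u v

namespace Pool.Agent.Q60.AB

open Module
open Pool.Agent.H914 Pool.Agent.H914.VarClass Pool.Agent.H914.VarClass.Obj
  Pool.Agent.H914.WeilCohomology
open Pool.Agent.Y121 Pool.Agent.Y121.AHS Pool.Agent.Y133.Half Pool.Agent.Q60.FI

variable {k : Type u} [Field k] {𝒱 : VarClass k} {ops : CycleOps 𝒱}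

lemma op_mul {W : WeilCohomology.{u, v} ops} {X : 𝒱.Obj} {S : Sys W} {l : W.H X}
    (hl : l ∈ S.C X) : LinearMap.mulLeft W.K l ∈ S.Op X X := by
  have h1 : W.corr (W.push (diag X) l) = LinearMap.mulLeft W.K l :=
    LinearMap.ext fun a => W.corr_diag l a
  rw [← h1]
  exact Sys.Op.corr (S.push _ hl)

theorem tens_bound_aux (T : AH.HodgeTheory ops) (X : 𝒱.Obj) {l : T.W.H X}
    (hl : l ∈ (algSys T.W).C X) (hR : HD.RealH T X) {φ : Module.End T.W.K (T.W.H X)}
    (hφ : HD.IsPol T X φ) (i : ℕ) (hφl : ∀ x ∈ T.W.gr X i, φ x = l * x)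
    (hns : NoSkewDeg T X i φ)
    (h4 : ∀ c ∈ tens X T.W i 3, AH.IsHodge T (pw X 3) (2 * i) c → c ∈ (algSys T.W).C (pw X 3))
    (n : ℕ) :
    finrank T.W.K ((AH.hodgeSys T).C (pw X (2 * n + 1)) ⊓ tens X T.W i (2 * n + 1) :
        Submodule T.W.K (T.W.H (pw X (2 * n + 1)))) ≤
      4 ^ (finrank T.W.K (T.W.gr X i) ^ 2) *
        finrank T.W.K ((algSys T.W).C (pw X (2 * n + 1)) ⊓ tens X T.W i (2 * n + 1) :
        Submodule T.W.K (T.W.H (pw X (2 * n + 1)))) := by
  classical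
  obtain ⟨e, dg, he⟩ := exists_dbasis T.W X
  have hcard : Fintype.card {j // dg j = i} = finrank T.W.K (T.W.gr X i) := by
    have h1 := span_gs e he i
    have hli : LinearIndependent T.W.K (gs e dg i) :=
      e.linearIndependent.comp _ Subtype.val_injective
    rw [← finrank_span_eq_card hli, h1]
  have h4' : crdF (gs e dg i) (AH.hodgeSys T) 4 ≤ crdF (gs e dg i) (algSys T.W) 4 := by
    intro t ht
    rw [mem_crdF_succ] at ht ⊢
    have h1 : clsF (gs e dg i) (prj X 3) t ∈ tens X T.W i 3 := by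
      rw [tens_eq e he]
      exact Submodule.sum_mem _ fun w _ =>
        Submodule.smul_mem _ _ (Submodule.subset_span ⟨w, rfl⟩)
    have h3 : clsF (gs e dg i) (prj X 3) t ∈ T.W.gr (pw X 3) ((3 + 1) * i) := tens_gr _ _ i 3 h1
    have h3' : clsF (gs e dg i) (prj X 3) t ∈ T.W.gr (pw X 3) (2 * (2 * i)) := by
      have h2 : (3 + 1) * i = 2 * (2 * i) := by ring
      rw [← h2]
      exact h3
    have h5 := ClassPred.sp_proj (Q := AH.hodgePred T) ht (2 * i)
    rw [proj_same _ h3'] at h5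
    exact h4 _ h1 h5
  have key := deg_bound (T := T) e he hR hφ i (algSys T.W)
    (fun Z => ClassPred.alg_le (Q := AH.hodgePred T)) (op_mul hl)
    (fun x hx => (hφl x hx).symm) h4' hns (n + 1)
  have e1 : n + 1 + (n + 1) = 2 * n + 1 + 1 := by ring
  rw [e1, finrank_crdF e he, finrank_crdF e he, hcard] at key
  exact key

variable {T : AHS.HodgeTheory ops} {X : 𝒱.Obj}

lemma rankIn_eq {K : Type} {A : Type} [Field K] [Ring A] [Algebra K A] (V : Submodule K A)
    (S : Set A) : rankIn V S = finrank K (Submodule.span K S ⊓ V : Submodule K A) := by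
  have h1 : {c | c ∈ V ∧ InSpan K S c} =
      ((Submodule.span K S ⊓ V : Submodule K A) : Set A) := by
    ext c
    exact and_comm
  rw [rankIn, h1, Set.finrank, Submodule.span_eq]

lemma NoTypeIV.noSkewDeg {l : T.W.H X} (h : NoTypeIV X T l) {φ : Module.End T.W.K (T.W.H X)}
    (hφ : ∀ x ∈ T.W.gr X 1, φ x = l * x) : NoSkewDeg (toH T) X 1 φ := by
  intro F hF hF1 hcom hsk
  obtain ⟨c, hc, rfl⟩ := (Sys.mem_Op (S := AH.hodgeSys (toH T))).1 hF
  refine h c ⟨hc, hF1⟩ (fun d hd x hx => ?_) (fun x hx y hy => ?_)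
  · exact hcom (T.W.corr d) ((Sys.mem_Op (S := AH.hodgeSys (toH T))).2 ⟨d, hd.1, rfl⟩) hd.2 x hx
  · have h1 := hsk x hx y hy
    have h2 : T.W.tr X (φ (T.W.corr c x) * y) = - T.W.tr X (φ x * T.W.corr c y) := h1
    have h3 : T.W.corr c x ∈ T.W.gr X 1 := hF1 x hx
    rw [hφ _ h3, hφ x hx] at h2
    exact h2

/-- **The bound for the index in the tensors of the first cohomology.** -/
theorem tens_bound (T : AHS.HodgeTheory ops) (X : 𝒱.Obj) (l : T.W.H X)
    (hl : InSpan T.W.K (algSet T.W X) l) (hp : PolarisedBy X T l) (hc : NoTypeIV X T l)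
    (h4 : TensorsAlgebraic X T 3) (n : ℕ) :
    hodgeTensors X T (2 * n + 1) ≤ 4 ^ (firstBetti X T ^ 2) * algTensors X T (2 * n + 1) := by
  obtain ⟨hdec, φ, hpol, hφ⟩ := hp
  have hR : HD.RealH (toH T) X :=
    { range := fun p q x hx hx0 => hdec.1 p q x hx hx0
      conj := fun p q x y hxy hx => hdec.2 p q x y hx hxy }
  have hφ' : HD.IsPol (toH T) X φ := ⟨fun p q r s x hx y hy hne => hpol.1 p q r s x y hx hy hne,
    fun p q x y hx hxy hx0 => hpol.2 p q x y hx hxy hx0⟩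
  have hl' : l ∈ (algSys (toH T).W).C X := by
    have h1 := algSet_eq T.W X
    change l ∈ (algSys T.W).C X
    rw [← h1]
    exact hl
  have key := tens_bound_aux (toH T) X hl' hR hφ' 1 hφ (hc.noSkewDeg hφ) (fun c hc hc2 => by
    have h7 := algSet_eq T.W (pw X 3)
    change _ ∈ (algSys T.W).C (pw X 3)
    rw [← h7]
    exact h4 _ hc ⟨2, hc2⟩) n
  rw [hodgeTensors, algTensors, rankIn_eq, rankIn_eq, algSet_eq]
  exact key

end Pool.Agent.Q60.AB
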