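import Pool.Agent.Q60.AB.Ctn

/-!
# The index of a system in the tensors of the cohomology of one degree
-/

open CategoryTheory AlgebraicGeometry TensorProduct

set_option linter.unusedSectionVars false

universe u v

namespace Pool.Agent.Q60.AB

open Module Matrix
open Pool.Agent.H914 Pool.Agent.H914.VarClass Pool.Agent.H914.VarClass.Obj
  Pool.Agent.H914.WeilCohomology
open Pool.Agent.Y133.Half Pool.Agent.Y121.AH Pool.Agent.Q60.ED Pool.Agent.Q60.HD Pool.Agent.Q60.FI

variable {k : Type u} [Field k] {𝒱 : VarClass k} {ops : CycleOps 𝒱}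

variable {T : HodgeTheory ops} {X : 𝒱.Obj} {ι : Type} [Fintype ι] [DecidableEq ι]
  (e : Basis ι T.W.K (T.W.H X)) {dg : ι → ℕ}

/-- Linear maps which agree on the elements of the basis of degree `i` agree on the classes of
degree `i`. -/
lemma ext_gr (he : ∀ j, e j ∈ T.W.gr X (dg j)) {i : ℕ} {M : Type*} [AddCommGroup M]
    [Module T.W.K M] {F G : T.W.H X →ₗ[T.W.K] M} (h : ∀ j, dg j = i → F (e j) = G (e j))
    {x : T.W.H X} (hx : x ∈ T.W.gr X i) : F x = G x := by
  rw [← e.sum_repr x, map_sum, map_sum]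
  refine Finset.sum_congr rfl fun a _ => ?_
  rw [map_smul, map_smul]
  by_cases ha : dg a = i
  · rw [h a ha]
  · rw [repr_zero e he hx ha, zero_smul, zero_smul]

lemma apply_rm (F : Module.End T.W.K (T.W.H X)) (j : ι) :
    F (e j) = ∑ i, ((rm e F i j : ℚ) : T.W.K) • e i := by
  conv_lhs => rw [← e.sum_repr (F (e j))]
  refine Finset.sum_congr rfl fun i _ => ?_
  rw [rm_cast, LinearMap.toMatrix_apply]

lemma rm_blk (he : ∀ j, e j ∈ T.W.gr X (dg j)) {i : ℕ} {F : Module.End T.W.K (T.W.H X)}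
    (hF : ∀ x ∈ T.W.gr X i, F x ∈ T.W.gr X i) : Blk (fun j => dg j = i) (rm e F) := by
  intro a b ha hb
  apply rat_cast_inj (T := T)
  rw [rm_cast, LinearMap.toMatrix_apply, Rat.cast_zero]
  have h1 : F (e b) ∈ T.W.gr X i := hF _ (by rw [← hb]; exact he b)
  exact repr_zero e he h1 ha

/-- The extension of a matrix by zero. -/
def xm {i : ℕ} (c : Matrix {j : ι // dg j = i} {j : ι // dg j = i} ℚ) : Matrix ι ι ℚ :=
  Matrix.of fun a b => if h : dg a = i ∧ dg b = i then c ⟨a, h.1⟩ ⟨b, h.2⟩ else 0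

lemma xm_val {i : ℕ} (c : Matrix {j : ι // dg j = i} {j : ι // dg j = i} ℚ)
    (a b : {j : ι // dg j = i}) : xm c a.1 b.1 = c a b := by
  rw [xm, Matrix.of_apply, dif_pos ⟨a.2, b.2⟩]

lemma xm_left {i : ℕ} (c : Matrix {j : ι // dg j = i} {j : ι // dg j = i} ℚ) {a : ι}
    (ha : dg a ≠ i) (b : ι) : xm c a b = 0 := by
  rw [xm, Matrix.of_apply, dif_neg fun h => ha h.1]

lemma xm_right {i : ℕ} (c : Matrix {j : ι // dg j = i} {j : ι // dg j = i} ℚ) (a : ι) {b : ι}
    (hb : dg b ≠ i) : xm c a b = 0 := by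
  rw [xm, Matrix.of_apply, dif_neg fun h => hb h.2]

lemma sm_xm {i : ℕ} (c : Matrix {j : ι // dg j = i} {j : ι // dg j = i} ℚ) :
    sm (fun j => dg j = i) (xm c) = c := by
  ext a b
  rw [sm_apply, xm_val]

lemma xm_blk {i : ℕ} (c : Matrix {j : ι // dg j = i} {j : ι // dg j = i} ℚ) :
    Blk (fun j => dg j = i) (xm c) := fun _ b ha _ => xm_left c ha b

/-- Matrices which commute with the extension of a matrix by zero. -/
lemma xm_comm {K : Type} [CommRing K] {i : ℕ} {C : Matrix ι ι K} {M : Matrix ι ι K}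
    (hl : ∀ a b, dg a ≠ i → C a b = 0) (hr : ∀ a b, dg b ≠ i → C a b = 0)
    (h1 : ∀ a b, dg a ≠ i → dg b = i → M a b = 0) (h2 : ∀ a b, dg a = i → dg b ≠ i → M a b = 0)
    (h : sm (fun j => dg j = i) M * sm (fun j => dg j = i) C =
      sm (fun j => dg j = i) C * sm (fun j => dg j = i) M) : M * C = C * M := by
  ext a b
  by_cases ha : dg a = i
  · by_cases hb : dg b = i
    · have h3 := congrFun (congrFun h ⟨a, ha⟩) ⟨b, hb⟩
      rw [← sm_mul (p := fun j => dg j = i) (N := C) (fun a b ha _ => hl a b ha),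
        ← sm_mul (p := fun j => dg j = i) (N := M) (fun a b ha hb => h1 a b ha hb)] at h3
      exact h3
    · rw [Matrix.mul_apply, Matrix.mul_apply]
      rw [Finset.sum_eq_zero fun k _ => by rw [hr k b hb, mul_zero]]
      refine (Finset.sum_eq_zero fun k _ => ?_).symm
      by_cases hk : dg k = i
      · rw [h2 k b hk hb, mul_zero]
      · rw [hr a k hk, zero_mul]
  · rw [Matrix.mul_apply, Matrix.mul_apply]
    rw [Finset.sum_eq_zero (f := fun k => C a k * M k b) fun k _ => by rw [hl a k ha, zero_mul]]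
    refine Finset.sum_eq_zero fun k _ => ?_
    by_cases hk : dg k = i
    · rw [h1 a k ha hk, zero_mul]
    · rw [hl k b hk, mul_zero]

variable (he : ∀ j, e j ∈ T.W.gr X (dg j)) (hR : RealH T X) {φ : Module.End T.W.K (T.W.H X)}
  (hφ : IsPol T X φ) (i : ℕ)

lemma phd_c {z : ℂ} : (phd e he hR hφ i).c z = sm (fun j => dg j = i) ((phs e hR hφ).c z) :=
  sub_c _ z

include he in
lemma phs_zero {z : ℂ} (hz : z ≠ 0) {a b : ι} (h : dg a ≠ dg b) :
    (phs e hR hφ).c z a b = 0 := by
  rw [phs_c e hR hφ hz]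
  exact mt_zop_zero e he z h

lemma qc_sm (M : Matrix ι ι ℚ) : qc (sm (fun j => dg j = i) M) =
    sm (fun j => dg j = i) (qc M) := rfl

include he in
/-- The operators given by matrices of Hodge tensors of degree `i`. -/
lemma op_of_tv {c : Matrix {j : ι // dg j = i} {j : ι // dg j = i} ℚ}
    (hc : tv (phd e he hR hφ i).Q c ∈ (phd e he hR hφ i).T 2) {F : Module.End T.W.K (T.W.H X)}
    (hF : rm e F = xm c) : F ∈ (hodgeSys T).Op X X := by
  rw [op_iff e hR hφ, tv_iff, hF]
  intro z hz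
  have h1 := (tv_iff (V := phd e he hR hφ i) c).1 hc z hz
  rw [phd_c] at h1
  refine xm_comm (i := i) (dg := dg) (C := qc (xm c)) (fun a b ha => ?_) (fun a b hb => ?_)
    (fun a b ha hb => ?_) (fun a b ha hb => ?_) ?_
  · rw [qc, Matrix.map_apply, xm_left c ha, Rat.cast_zero]
  · rw [qc, Matrix.map_apply, xm_right c a hb, Rat.cast_zero]
  · exact phs_zero e he hR hφ hz fun h => ha (h.trans hb)
  · exact phs_zero e he hR hφ hz fun h => hb (h.symm.trans ha)
  · rw [← qc_sm, sm_xm]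
    exact h1

/-- The matrices of the operators given by Hodge classes which preserve the degree `i`. -/
lemma tv_of_op {G : Module.End T.W.K (T.W.H X)} (hG : G ∈ (hodgeSys T).Op X X)
    (hGi : ∀ x ∈ T.W.gr X i, G x ∈ T.W.gr X i) :
    tv (phd e he hR hφ i).Q (sm (fun j => dg j = i) (rm e G)) ∈ (phd e he hR hφ i).T 2 := by
  rw [op_iff e hR hφ, tv_iff] at hG
  rw [tv_iff]
  intro z hz
  have h1 := congrArg (sm fun j => dg j = i) (hG z hz)
  have hb1 : Blk (fun j => dg j = i) (qc (rm e G)) := by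
    intro a b ha hb
    rw [qc, Matrix.map_apply, rm_blk e he hGi a b ha hb, Rat.cast_zero]
  have hb2 : Blk (fun j => dg j = i) ((phs e hR hφ).c z) := blk e he hR hφ i z hz
  rw [sm_mul hb1, sm_mul hb2] at h1
  rw [phd_c, qc_sm]
  exact h1

/-- The operators given by Hodge classes on `X × X` which preserve the degree `i` contain, as
operators on the cohomology of degree `i`, no nonzero central elements which are skew for the
polarisation. -/
def NoSkewDeg (T : HodgeTheory ops) (X : 𝒱.Obj) (i : ℕ) (φ : Module.End T.W.K (T.W.H X)) : Prop :=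
  ∀ F ∈ (hodgeSys T).Op X X, (∀ x ∈ T.W.gr X i, F x ∈ T.W.gr X i) →
    (∀ G ∈ (hodgeSys T).Op X X, (∀ x ∈ T.W.gr X i, G x ∈ T.W.gr X i) →
      ∀ x ∈ T.W.gr X i, F (G x) = G (F x)) →
    (∀ x ∈ T.W.gr X i, ∀ y ∈ T.W.gr X i, T.W.tr X (φ (F x) * y) = - T.W.tr X (φ x * F y)) →
    ∀ x ∈ T.W.gr X i, F x = 0

lemma cen_deg (hcen : NoSkewDeg T X i φ) (c : Matrix {j : ι // dg j = i} {j : ι // dg j = i} ℚ)
    (hc : tv (phd e he hR hφ i).Q c ∈ (phd e he hR hφ i).T 2)
    (hcom : ∀ a, tv (phd e he hR hφ i).Q a ∈ (phd e he hR hφ i).T 2 → a * c = c * a)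
    (hsk : ∀ s ∈ (phd e he hR hφ i).T 2, aop c s = 0) : c = 0 := by
  obtain ⟨F, hF⟩ := rm_surj e (xm c)
  have hFop := op_of_tv e he hR hφ i hc hF
  set Q := (phd e he hR hφ i).Q with hQdef
  have hQ : ∀ a b, ((Q a b : ℚ) : T.W.K) = T.W.tr X (φ (gs e dg i a) * gs e dg i b) :=
    fun a b => rt_spec _
  have hFe : ∀ b : {j : ι // dg j = i}, F (gs e dg i b) =
      ∑ a : {j : ι // dg j = i}, ((c a b : ℚ) : T.W.K) • gs e dg i a := by
    intro b
    rw [gs, apply_rm, hF, sum_sub (fun j => dg j = i) fun a ha => by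
      rw [xm_left c ha, Rat.cast_zero, zero_smul]]
    refine Finset.sum_congr rfl fun a _ => ?_
    rw [xm_val]
    rfl
  have hFi : ∀ x ∈ T.W.gr X i, F x ∈ T.W.gr X i := by
    intro x hx
    rw [← e.sum_repr x, map_sum]
    refine Submodule.sum_mem _ fun b _ => ?_
    rw [map_smul]
    by_cases hb : dg b = i
    · refine Submodule.smul_mem _ _ ?_
      have h1 := hFe ⟨b, hb⟩
      rw [gs] at h1
      rw [h1]
      exact Submodule.sum_mem _ fun a _ => Submodule.smul_mem _ _ (gs_mem e he i a)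
    · rw [repr_zero e he hx hb, zero_smul]
      exact Submodule.zero_mem _
  have hdet : Q.det ≠ 0 := PHS.det_Q (V := phd e he hR hφ i)
  have hu := isUnit_iff_ne_zero.2 hdet
  -- the skewness for the polarisation
  have h1 : c.transpose * Q = - (Q * c) := by
    have h2 := hsk _ (PHS.Om_mem (V := phd e he hR hφ i))
    have h3 : PHS.Om (phd e he hR hφ i).Q = NP.vec Q⁻¹ := rfl
    rw [h3, aop_vec] at h2
    have h4 : c * Q⁻¹ + Q⁻¹ * c.transpose = 0 := NP.vec_inj (h2.trans rfl)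
    have h5 := congrArg (fun M => Q * M * Q) h4
    simp only [Matrix.mul_add, Matrix.add_mul, Matrix.mul_zero, Matrix.zero_mul] at h5
    have h6 : Q * (Q⁻¹ * c.transpose) * Q = c.transpose * Q := by
      rw [← Matrix.mul_assoc, Matrix.mul_nonsing_inv _ hu, Matrix.one_mul]
    have h7 : Q * (c * Q⁻¹) * Q = Q * c := by
      rw [← Matrix.mul_assoc, Matrix.mul_assoc _ Q⁻¹, Matrix.nonsing_inv_mul _ hu,
        Matrix.mul_one]
    rw [h6, h7] at h5
    exact eq_neg_of_add_eq_zero_right h5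
  have h2 : ∀ a b, T.W.tr X (φ (F (gs e dg i a)) * gs e dg i b) =
      - T.W.tr X (φ (gs e dg i a) * F (gs e dg i b)) := by
    intro a b
    have h3 := congrFun (congrFun h1 a) b
    rw [Matrix.neg_apply, Matrix.mul_apply, Matrix.mul_apply] at h3
    have h4 := congrArg (fun q : ℚ => (q : T.W.K)) h3
    beta_reduce at h4
    rw [Rat.cast_neg, Rat.cast_sum, Rat.cast_sum] at h4
    rw [hFe a, hFe b, map_sum, Finset.sum_mul, Finset.mul_sum, map_sum, map_sum]
    refine Eq.trans ?_ (h4.trans (congrArg Neg.neg ?_))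
    · refine Finset.sum_congr rfl fun k _ => ?_
      rw [map_smul, smul_mul_assoc, map_smul, smul_eq_mul, Rat.cast_mul, hQ,
        Matrix.transpose_apply]
    · refine Finset.sum_congr rfl fun k _ => ?_
      rw [mul_smul_comm, map_smul, smul_eq_mul, Rat.cast_mul, hQ, mul_comm]
  have h3 : ∀ x ∈ T.W.gr X i, ∀ y ∈ T.W.gr X i,
      T.W.tr X (φ (F x) * y) = - T.W.tr X (φ x * F y) := by
    intro x hx y hy
    let L1 : T.W.H X →ₗ[T.W.K] (T.W.H X →ₗ[T.W.K] T.W.K) :=
      ((LinearMap.mul T.W.K (T.W.H X)).compr₂ (T.W.tr X)) ∘ₗ φ ∘ₗ F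
    let L2 : T.W.H X →ₗ[T.W.K] (T.W.H X →ₗ[T.W.K] T.W.K) :=
      - (((LinearMap.mul T.W.K (T.W.H X)).compr₂ (T.W.tr X)).compl₂ F ∘ₗ φ)
    have key : ∀ b, dg b = i → ∀ x ∈ T.W.gr X i, L1 x (e b) = L2 x (e b) := by
      intro b hb x hx
      refine ext_gr e he (F := L1.flip (e b)) (G := L2.flip (e b)) (fun a ha => ?_) hx
      exact h2 ⟨a, ha⟩ ⟨b, hb⟩
    exact ext_gr e he (F := L1 x) (G := L2 x) (fun b hb => key b hb x hx) hy
  have h4 := hcen F hFop hFi (fun G hG hGi x hx => ?_) h3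
  · ext a b
    have h5 := h4 _ (gs_mem e he i b)
    rw [hFe] at h5
    have h6 := congrArg (fun y => e.repr y a.1) h5
    beta_reduce at h6
    rw [map_sum, Finsupp.coe_finsetSum, Finset.sum_apply, Finset.sum_eq_single a, map_smul,
      Finsupp.smul_apply, gs, Basis.repr_self, Finsupp.single_eq_same, smul_eq_mul, mul_one,
      map_zero, Finsupp.zero_apply] at h6
    · rw [Matrix.zero_apply]
      apply rat_cast_inj (T := T)
      rw [h6, Rat.cast_zero]
    · intro a' _ ha'
      rw [map_smul, Finsupp.smul_apply, gs, Basis.repr_self, Finsupp.single_eq_of_ne, smul_zero]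
      exact fun h => ha' (Subtype.ext h.symm)
    · intro h
      exact absurd (Finset.mem_univ _) h
  · have h5 := hcom _ (tv_of_op e he hR hφ i hG hGi)
    refine ext_gr e he (F := F ∘ₗ G) (G := G ∘ₗ F) (fun b hb => ?_) hx
    rw [apply_rm, apply_rm, rm_mul, rm_mul, hF]
    refine Finset.sum_congr rfl fun a _ => ?_
    have h6 : (xm c * rm e G) a b = (rm e G * xm c) a b := by
      by_cases ha : dg a = i
      · have h7 := congrFun (congrFun h5 ⟨a, ha⟩) ⟨b, hb⟩
        have h8 : c = sm (fun j => dg j = i) (xm c) := (sm_xm c).symm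
        rw [h8, ← sm_mul (xm_blk c), ← sm_mul (rm_blk e he hGi)] at h7
        exact h7.symm
      · rw [Matrix.mul_apply, Matrix.mul_apply]
        rw [Finset.sum_eq_zero fun k _ => by rw [xm_left c ha, zero_mul]]
        refine (Finset.sum_eq_zero fun k _ => ?_).symm
        by_cases hk : dg k = i
        · rw [rm_blk e he hGi a k ha hk, zero_mul]
        · rw [xm_left c hk, mul_zero]
    rw [h6]

end Pool.Agent.Q60.AB
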