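import Pool.Agent.Q60.HD.Gram
import Pool.Agent.Q60.FI.Hdg

/-!
# Sub-Hodge structures in coordinates
-/

set_option linter.unusedSectionVars false

namespace Pool.Agent.Q60.AB

open Module Matrix
open Pool.Agent.Q60.ED

variable {ι : Type} [Fintype ι] [DecidableEq ι] (p : ι → Prop) [DecidablePred p]

/-- The coordinate matrix of a part. -/
def sm {K : Type} (M : Matrix ι ι K) : Matrix {j // p j} {j // p j} K :=
  M.submatrix Subtype.val Subtype.val

lemma sm_apply {K : Type} (M : Matrix ι ι K) (i j : {j // p j}) : sm p M i j = M i.1 j.1 := rfl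

lemma sum_sub {M : Type*} [AddCommMonoid M] {F : ι → M} (h : ∀ a, ¬ p a → F a = 0) :
    ∑ a, F a = ∑ a : {j // p j}, F a.1 := by
  symm
  refine Fintype.sum_of_injective Subtype.val Subtype.val_injective _ _ ?_ fun _ => rfl
  intro a ha
  refine h a fun hp => ha ⟨⟨a, hp⟩, rfl⟩

/-- A matrix which preserves the span of the basis elements in the part. -/
def Blk {K : Type} [Zero K] (M : Matrix ι ι K) : Prop := ∀ i j, ¬ p i → p j → M i j = 0

variable {p}

lemma sm_mul {K : Type} [CommRing K] {M N : Matrix ι ι K} (hN : Blk p N) :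
    sm p (M * N) = sm p M * sm p N := by
  ext i j
  rw [sm_apply, Matrix.mul_apply, Matrix.mul_apply]
  exact sum_sub p fun a ha => by rw [hN a j.1 ha j.2, mul_zero]

lemma sm_one {K : Type} [CommRing K] : sm p (1 : Matrix ι ι K) = 1 := by
  ext i j
  rw [sm_apply, Matrix.one_apply, Matrix.one_apply]
  simp only [Subtype.ext_iff]

lemma coch_sm (d : ℕ) (E : ℕ → Matrix ι ι ℂ) (z : ℂ) :
    coch d (fun w => sm p (E w)) z = sm p (coch d E z) := by
  ext i j
  simp only [coch, Matrix.smul_apply, Matrix.sum_apply, sm_apply]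

/-- The extension of a vector by zero. -/
def e0 (x : {j // p j} → ℂ) (a : ι) : ℂ := if h : p a then x ⟨a, h⟩ else 0

lemma e0_val (x : {j // p j} → ℂ) (a : {j // p j}) : e0 x a.1 = x a := by
  rw [e0, dif_pos a.2]

lemma e0_of (x : {j // p j} → ℂ) {a : ι} (h : ¬ p a) : e0 x a = 0 := by
  rw [e0, dif_neg h]

lemma gram_sm {M B : Matrix ι ι ℂ} (hB : B.det ≠ 0) (hM : M = B.conjTranspose * B) :
    ∃ B' : Matrix {j // p j} {j // p j} ℂ, B'.det ≠ 0 ∧ sm p M = B'.conjTranspose * B' := by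
  refine HD.exists_gram fun x hx => ?_
  have h1 : star x ⬝ᵥ (sm p M *ᵥ x) = star (B *ᵥ e0 x) ⬝ᵥ (B *ᵥ e0 x) := by
    have h2 : star (B *ᵥ e0 x) ⬝ᵥ (B *ᵥ e0 x) = star (e0 x) ⬝ᵥ (M *ᵥ e0 x) := by
      rw [hM, Matrix.star_mulVec, ← Matrix.dotProduct_mulVec, Matrix.mulVec_mulVec]
    rw [h2, dotProduct, dotProduct]
    symm
    rw [sum_sub p fun a ha => by rw [Pi.star_apply, e0_of x ha, star_zero, zero_mul]]
    refine Finset.sum_congr rfl fun a _ => ?_
    rw [Pi.star_apply, Pi.star_apply, e0_val, Matrix.mulVec, Matrix.mulVec, dotProduct, dotProduct]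
    congr 1
    rw [sum_sub p fun b hb => by rw [e0_of x hb, mul_zero]]
    exact Finset.sum_congr rfl fun b _ => by rw [e0_val]; rfl
  have h3 : B *ᵥ e0 x ≠ 0 := by
    intro h
    apply hx
    have h4 : e0 x = 0 := by
      have h5 := congrArg (fun v => B⁻¹ *ᵥ v) h
      simp only [Matrix.mulVec_mulVec, Matrix.mulVec_zero] at h5
      rwa [Matrix.nonsing_inv_mul _ (isUnit_iff_ne_zero.2 hB), Matrix.one_mulVec] at h5
    funext a
    rw [← e0_val x a, h4]
    rfl
  have h6 : star (B *ᵥ e0 x) ⬝ᵥ (B *ᵥ e0 x) =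
      ((∑ i, Complex.normSq ((B *ᵥ e0 x) i) : ℝ) : ℂ) := by
    rw [dotProduct, Complex.ofReal_sum]
    refine Finset.sum_congr rfl fun i _ => ?_
    rw [Pi.star_apply, Complex.normSq_eq_conj_mul_self]
    rfl
  refine ⟨_, ?_, h1.trans h6⟩
  obtain ⟨i, hi⟩ := Function.ne_iff.1 h3
  refine Finset.sum_pos' (fun j _ => Complex.normSq_nonneg _) ⟨i, Finset.mem_univ _, ?_⟩
  exact Complex.normSq_pos.2 hi

variable (V : PHS ι)

/-- The sub-Hodge structure spanned by a part of the basis. -/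
noncomputable def sub (h : ∀ z : ℂ, z ≠ 0 → Blk p (V.c z)) : PHS {j // p j} where
  d := V.d
  E w := sm p (V.E w)
  Q := sm p V.Q
  one := by
    rw [coch_sm]
    have h1 : coch V.d V.E 1 = 1 := V.one
    rw [h1, sm_one]
  mul z z' hz hz' := by
    rw [coch_sm, coch_sm, coch_sm, V.mul z z' hz hz']
    exact sm_mul (h z' hz')
  inv z hz := by
    rw [coch_sm]
    have h1 := V.inv z hz
    have h2 := congrArg (sm p) h1
    have hb : Blk p (coch V.d V.E z) := h z hz
    rw [sm_mul hb] at h2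
    have h3 : sm p ((coch V.d V.E z).transpose * qc V.Q) * sm p (coch V.d V.E z) =
        (sm p (coch V.d V.E z)).transpose * qc (sm p V.Q) * sm p (coch V.d V.E z) := by
      congr 1
      ext i j
      rw [sm_apply, Matrix.mul_apply, Matrix.mul_apply]
      exact sum_sub p fun a ha => by
        rw [Matrix.transpose_apply]
        have h4 : coch V.d V.E z a i.1 = 0 := h z hz a i.1 ha i.2
        rw [h4, zero_mul]
    rw [← h3, h2]
    rfl
  gram := by
    rw [coch_sm]
    obtain ⟨B, hB, hg⟩ := V.gram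
    obtain ⟨B', hB', hg'⟩ := gram_sm (p := p) hB hg
    refine ⟨B', hB', ?_⟩
    rw [← hg']
    exact (sm_mul (M := qc V.Q) (h Complex.I Complex.I_ne_zero)).symm

variable {V}

lemma sub_c (h : ∀ z : ℂ, z ≠ 0 → Blk p (V.c z)) (z : ℂ) : (sub V h).c z = sm p (V.c z) :=
  coch_sm _ _ _

lemma sub_Q (h : ∀ z : ℂ, z ≠ 0 → Blk p (V.c z)) : (sub V h).Q = sm p V.Q := rfl

section ext

variable {K : Type} [Field K] {n : ℕ}

/-- The extension of a tensor by zero. -/
def x0 (t : (Fin n → {j // p j}) → K) (w : Fin n → ι) : K :=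
  if h : ∀ i, p (w i) then t fun i => ⟨w i, h i⟩ else 0

lemma x0_val (t : (Fin n → {j // p j}) → K) (w : Fin n → {j // p j}) :
    x0 t (fun i => (w i).1) = t w := by
  rw [x0, dif_pos fun i => (w i).2]

lemma x0_of (t : (Fin n → {j // p j}) → K) {w : Fin n → ι} (h : ¬ ∀ i, p (w i)) : x0 t w = 0 := by
  rw [x0, dif_neg h]

lemma sum_word {M : Type*} [AddCommMonoid M] {F : (Fin n → ι) → M}
    (h : ∀ w, (¬ ∀ i, p (w i)) → F w = 0) :
    ∑ w, F w = ∑ w : Fin n → {j // p j}, F fun i => (w i).1 := by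
  symm
  refine Fintype.sum_of_injective (fun (w : Fin n → {j // p j}) i => (w i).1) ?_ _ _ ?_
    fun _ => rfl
  · intro w w' hw
    funext i
    exact Subtype.ext (congrFun hw i)
  · intro w hw
    refine h w fun hp => hw ⟨fun i => ⟨w i, hp i⟩, rfl⟩

lemma tpow_x0 {M : Matrix ι ι K} (hM : Blk p M) (t : (Fin n → {j // p j}) → K) :
    tpow M n (x0 t) = x0 (tpow (sm p M) n t) := by
  funext w
  rw [tpow_apply, sum_word fun J hJ => by rw [x0_of t hJ, mul_zero]]
  by_cases hw : ∀ i, p (w i)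
  · rw [x0, dif_pos hw, tpow_apply]
    refine Finset.sum_congr rfl fun J _ => ?_
    rw [x0_val]
    rfl
  · rw [x0_of _ hw]
    refine Finset.sum_eq_zero fun J _ => ?_
    obtain ⟨i, hi⟩ := not_forall.1 hw
    rw [Finset.prod_eq_zero (Finset.mem_univ i) (hM _ _ hi (J i).2), zero_mul]

lemma x0_inj {s t : (Fin n → {j // p j}) → K} (h : x0 s = x0 t) : s = t := by
  funext w
  rw [← x0_val s w, h, x0_val]

end ext

lemma cx_x0 {n : ℕ} (t : (Fin n → {j // p j}) → ℚ) : cx (x0 t) = x0 (cx t) := by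
  funext w
  by_cases hw : ∀ i, p (w i)
  · simp only [cx, x0, dif_pos hw]
  · simp only [cx, x0, dif_neg hw, Rat.cast_zero]

/-- The Hodge tensors of a sub-Hodge structure. -/
lemma sub_T (h : ∀ z : ℂ, z ≠ 0 → Blk p (V.c z)) {n : ℕ} (t : (Fin n → {j // p j}) → ℚ) :
    t ∈ (sub V h).T n ↔ x0 t ∈ V.T n := by
  rw [PHS.mem_T, PHS.mem_T]
  refine forall_congr' fun z => imp_congr_right fun hz => ?_
  rw [sub_c, cx_x0, tpow_x0 (h z hz)]
  exact ⟨fun h => by rw [h], fun h => x0_inj h⟩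

end Pool.Agent.Q60.AB
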